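import Pool.Agent.R246.SK.Defs

/-!
# SK-TRANS: transport of all data by a Möbius map
-/

open scoped ContDiff ComplexConjugate
open Filter MeasureTheory

namespace Pool.Agent.R30.SK

open Pool.Agent.R246.SK

noncomputable section

theorem cov_periodic {E : Type*} [NormedAddCommGroup E] [NormedSpace ℝ E] (φ : ℝ → ℝ)
    (hφ : ContDiff ℝ ∞ φ) (hper : ∀ t, φ (t + 2 * Real.pi) = φ t + 2 * Real.pi)
    (F : ℝ → E) (hF : Continuous F) (hFp : ∀ t, F (t + 2 * Real.pi) = F t) :
    ∫ t in (0 : ℝ)..(2 * Real.pi), (deriv φ t) • F (φ t) = ∫ t in (0 : ℝ)..(2 * Real.pi), F t := by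
  have h1 : ∀ x ∈ Set.uIcc (0 : ℝ) (2 * Real.pi), HasDerivAt φ (deriv φ x) x := fun x _ =>
    ((hφ.differentiable (by simp)) x).hasDerivAt
  have hd : ContDiff ℝ ∞ (deriv φ) := (contDiff_infty_iff_deriv.mp hφ).2
  have h2 : ContinuousOn (deriv φ) (Set.uIcc (0 : ℝ) (2 * Real.pi)) := hd.continuous.continuousOn
  have h3 := intervalIntegral.integral_comp_smul_deriv (g := F) h1 h2 hF
  simp only [Function.comp] at h3
  rw [h3]
  have h4 : φ (2 * Real.pi) = φ 0 + 2 * Real.pi := by
    have := hper 0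
    rwa [zero_add] at this
  rw [h4]
  have hp : Function.Periodic F (2 * Real.pi) := hFp
  have := hp.intervalIntegral_add_eq (φ 0) 0
  rw [this, zero_add]

theorem deriv_per (φ : ℝ → ℝ) (hper : ∀ t, φ (t + 2 * Real.pi) = φ t + 2 * Real.pi) (t : ℝ) :
    deriv φ (t + 2 * Real.pi) = deriv φ t := by
  have h1 : (fun x => φ (x + 2 * Real.pi)) = fun x => φ x + 2 * Real.pi := funext hper
  have h2 := deriv_comp_add_const (f := φ) (2 * Real.pi) t
  rw [h1] at h2
  rw [← h2]
  simp

theorem sp_comp {f : ℝ → ℂ} (hf : SP f) {φ : ℝ → ℝ} (hφ : ContDiff ℝ ∞ φ)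
    (hper : ∀ t, φ (t + 2 * Real.pi) = φ t + 2 * Real.pi) : SP (fun s => f (φ s)) := by
  refine ⟨hf.1.comp hφ, fun t => ?_⟩
  show f (φ (t + 2 * Real.pi)) = f (φ t)
  rw [hper, hf.2]

theorem ip_comp {a b : ℝ → ℝ} {φ : ℝ → ℝ} (hφ : ContDiff ℝ ∞ φ)
    (hper : ∀ t, φ (t + 2 * Real.pi) = φ t + 2 * Real.pi) (ha : PP a)
    (hb : ∀ t, b t = a (φ t) / deriv φ t) (hpos : ∀ t, 0 < deriv φ t) {f g : ℝ → ℂ} (hf : SP f)
    (hg : SP g) : ip b (fun s => f (φ s)) (fun s => g (φ s)) = ip a f g := by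
  have hc : Continuous (fun t => f t * conj (g t) / (a t : ℂ)) := by
    refine Continuous.div ?_ ?_ ?_
    · exact hf.1.continuous.mul (Complex.continuous_conj.comp hg.1.continuous)
    · exact Complex.continuous_ofReal.comp ha.1.continuous
    · intro t
      exact_mod_cast (ha.2.2 t).ne'
  have h := cov_periodic φ hφ hper (fun t => f t * conj (g t) / (a t : ℂ)) hc (by
    intro t
    simp only [hf.2 t, hg.2 t, ha.2.1 t])
  unfold ip
  rw [← h]
  congr 1
  funext t
  rw [hb t]
  have h1 : (a (φ t) : ℂ) ≠ 0 := by exact_mod_cast (ha.2.2 (φ t)).ne'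
  have h2 : ((deriv φ t : ℝ) : ℂ) ≠ 0 := by exact_mod_cast (hpos t).ne'
  rw [Complex.real_smul, Complex.ofReal_div]
  field_simp

theorem s_trans (hcov : S_COV) : S_TRANS := by
  intro w φ ψ hw hL a ha b hb
  obtain ⟨hφ, hψ, hφp, hψp, hφψ, hψφ, hφpos, hψP, heψ, heφ⟩ := hL
  have hdφ : ContDiff ℝ ∞ (deriv φ) := (contDiff_infty_iff_deriv.mp hφ).2
  have hbPP : PP b := by
    refine ⟨?_, ?_, ?_⟩
    · have : b = fun t => a (φ t) / deriv φ t := funext hb
      rw [this]
      exact (ha.1.comp hφ).div hdφ (fun t => (hφpos t).ne')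
    · intro t
      rw [hb, hb, hφp, ha.2.1, deriv_per φ hφp]
    · intro t
      rw [hb]
      exact div_pos (ha.2.2 _) (hφpos t)
  refine ⟨hbPP, ?_, ?_, ?_⟩
  · unfold LL
    have h := cov_periodic φ hφ hφp (fun t => 1 / a t)
      (Continuous.div continuous_const ha.1.continuous (fun t => (ha.2.2 t).ne')) (by
        intro t
        simp only [ha.2.1 t])
    rw [← h]
    congr 1
    funext t
    rw [hb t, smul_eq_mul]
    have h1 := (ha.2.2 (φ t)).ne'
    have h2 := (hφpos t).ne'
    field_simp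
  · rintro lam ⟨hmono, u, hu, hev, hON, hCP⟩
    refine ⟨hmono, fun j s => u j (φ s), fun j => sp_comp (hu j) hφ hφp, ?_, ?_, ?_⟩
    · intro j t
      have h1 := hcov w φ ψ hw ⟨hφ, hψ, hφp, hψp, hφψ, hψφ, hφpos, hψP, heψ, heφ⟩ (u j) (hu j) t
      have h2 : ((deriv φ t : ℝ) : ℂ) ≠ 0 := by exact_mod_cast (hφpos t).ne'
      have h3 := hev j (φ t)
      show (b t : ℂ) * Lam (fun s => u j (φ s)) t = (lam j : ℂ) * u j (φ t)
      rw [h1, hb t, ← h3, Complex.ofReal_div]
      field_simp
    · intro i j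
      show ip b (fun s => u i (φ s)) (fun s => u j (φ s)) = _
      rw [ip_comp hφ hφp ha hb hφpos (hu i) (hu j)]
      exact hON i j
    · intro f hf
      have hfψ : SP (fun s => f (ψ s)) := sp_comp hf hψ hψp
      have hfe : f = fun s => (fun s => f (ψ s)) (φ s) := by
        funext s
        show f s = f (ψ (φ s))
        rw [hψφ]
      have h1 := hCP (fun s => f (ψ s)) hfψ
      have h2 : ∀ j, ip b f (fun s => u j (φ s)) = ip a (fun s => f (ψ s)) (u j) := by
        intro j
        conv_lhs => rw [hfe]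
        exact ip_comp hφ hφp ha hb hφpos hfψ (hu j)
      have h3 : ip b f f = ip a (fun s => f (ψ s)) (fun s => f (ψ s)) := by
        conv_lhs => rw [hfe]
        exact ip_comp hφ hφp ha hb hφpos hfψ hfψ
      show HasSum (fun j => ‖ip b f (fun s => u j (φ s))‖ ^ 2) (ip b f f).re
      rw [h3]
      simp only [h2]
      exact h1
  · unfold ac fc
    rw [map_mul, Complex.conj_ofReal]
    congr 1
    have hee : ∀ (n : ℤ) (t : ℝ), conj (ee n t) = ee (-n) t := by
      intro n t
      unfold ee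
      rw [← Complex.exp_conj]
      congr 1
      simp
    have h1 : conj (∫ t in (0 : ℝ)..(2 * Real.pi), (b t : ℂ) * ee (-1) t)
        = ∫ t in (0 : ℝ)..(2 * Real.pi), (b t : ℂ) * ee 1 t := by
      have h0 : (0 : ℝ) ≤ 2 * Real.pi := by positivity
      rw [intervalIntegral.integral_of_le h0, intervalIntegral.integral_of_le h0,
        ← integral_conj]
      congr 1
      funext t
      rw [map_mul, Complex.conj_ofReal, hee]
      simp
    rw [h1]
    have hcont : Continuous (fun t => (b t : ℂ) * ee 1 t) := by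
      refine (Complex.continuous_ofReal.comp hbPP.1.continuous).mul ?_
      unfold ee
      fun_prop
    have hee1 : ∀ t, ee 1 (t + 2 * Real.pi) = ee 1 t := by
      intro t
      unfold ee
      have : Complex.I * ((1 : ℤ) : ℂ) * ((t + 2 * Real.pi : ℝ) : ℂ)
          = Complex.I * ((1 : ℤ) : ℂ) * (t : ℂ) + 2 * Real.pi * Complex.I := by
        push_cast
        ring
      rw [this, Complex.exp_periodic]
    have h2 := cov_periodic ψ hψ hψp (fun t => (b t : ℂ) * ee 1 t) hcont (by
      intro t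
      simp only [hbPP.2.1 t, hee1 t])
    rw [← h2]
    congr 1
    funext s
    have hchain : deriv φ (ψ s) * deriv ψ s = 1 := by
      have h3 : (fun x => φ (ψ x)) = fun x => x := funext hφψ
      have h4 : HasDerivAt φ (deriv φ (ψ s)) (ψ s) :=
        ((hφ.differentiable (by simp)) _).hasDerivAt
      have h5 : HasDerivAt ψ (deriv ψ s) s := ((hψ.differentiable (by simp)) _).hasDerivAt
      have h6 := h4.comp s h5
      have h7 : HasDerivAt (fun x => φ (ψ x)) 1 s := by
        rw [h3]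
        exact hasDerivAt_id s
      exact h6.unique h7
    have hbs : b (ψ s) = a s * Pw w s := by
      rw [hb, hφψ, ← hψP s]
      have h8 := (hφpos (ψ s)).ne'
      rw [div_eq_iff h8, mul_assoc, mul_comm (deriv ψ s), hchain, mul_one]
    rw [Complex.real_smul, hbs, hψP s, heψ s]
    push_cast
    ring

end

end Pool.Agent.R30.SK
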